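import Mathlib
import Pool.Agent.Helper68.INW.Defs
import Pool.Agent.Helper68.INW.Eda
import Pool.Agent.Helper68.INW.Pos
import Pool.Agent.Helper68.INW.Neg

set_option autoImplicit false

/-!
The generator of Impagliazzo, Nisan and Wigderson and read-once programs over a finite monoid `M`.
If every regular product of idempotents of `M` is idempotent, then the generator with graphs of
constant degree fools the programs over `M`, of every length. Otherwise it does not even hit them,
whatever the graphs, unless the degrees are almost polynomial in the length.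
-/

namespace Pool.Agent.Results.MP_92893d_lc.ExpanderINW

open Helper68.INW

/-- The dichotomy for the generator. -/
theorem result (M : Type) [Monoid M] [Finite M] :
    (IsEDA M → ∀ (S : Type) [Fintype S] [Nonempty S] (ε : ℝ), 0 < ε → ∃ lam : ℝ, 0 < lam ∧
      ∀ (d : ℕ → ℕ) (Γ : ∀ k, Seed S d k → Fin (d k) → Seed S d k),
        (∀ k, IsExpander (Γ k) lam) → ∀ (k : ℕ) (c : Fin (2 ^ k) → S → M) (F : Set M),
          |frac {v : Seed S d k | value c (fun t => out Γ k v t) ∈ F}
            - frac {x : Fin (2 ^ k) → S | value c x ∈ F}| ≤ ε) ∧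
    (¬ IsEDA M → ∀ (S : Type) [Fintype S], 2 ≤ Fintype.card S → ∀ (b : ℕ), 1 ≤ b →
      ∀ (d : ℕ → ℕ), (∀ j < 4 * (Nat.log 2 b + 1), d j ≤ 2 ^ b) →
      ∀ (Γ : ∀ k, Seed S d k → Fin (d k) → Seed S d k) (k : ℕ),
        8 * (Nat.clog 2 (Fintype.card S) + 1) * (b * (Nat.log 2 b + 1)) ≤ k →
        ∃ (c : Fin (2 ^ k) → S → M) (F : Set M),
          1 / 3 ≤ frac {x : Fin (2 ^ k) → S | value c x ∈ F} ∧
          ∀ v : Seed S d k, value c (fun t => out Γ k v t) ∉ F) := by
  refine ⟨fun h S _ _ ε hε => ?_, fun h S _ hS b hb d hd Γ k hk => ?_⟩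
  · obtain ⟨lam, h1, h2⟩ := positive M (orth_of_eda h) S hε
    exact ⟨lam, h1, fun d Γ hΓ k c F => h2 d Γ hΓ k c F⟩
  · exact negative (fun hO => h (eda_of_orth hO)) hS hb hd Γ hk

end Pool.Agent.Results.MP_92893d_lc.ExpanderINW
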