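import Mathlib
import Pool.Agent.Helper12.GR.CoinMain
import Pool.Agent.Helper12.GR.Eda

set_option autoImplicit false

/-!
Read-once programs over a finite monoid `M`: pseudorandomness against the programs over `M` reduces
to pseudorandomness against programs over groups (with boundedly many fixed letters) if and only
if every regular product of idempotents of `M` is idempotent, if and only if the programs over `M`
do not distinguish nearly fair coins from fair coins. For all these monoids the generator of
Impagliazzo, Nisan and Wigderson with small bias steps has seeds of almost logarithmic length,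
and if moreover all groups in `M` are `2`-groups, sums of boundedly many small bias strings
`x_i = Tr (b * a ^ i)` are an explicit pseudorandom generator with seeds of length
`O(log (n / δ))` for every order of reading.
-/

namespace Pool.Agent.Results.MP_92893d_lc.GroupReduction

section monoids

/-- The class `EDA`: every product of idempotents of `M` which is a regular element is
idempotent. -/
def IsEDA (M : Type) [Monoid M] : Prop :=
  ∀ x ∈ Submonoid.closure {e : M | e * e = e}, (∃ z : M, x * z * x = x) → x * x = x

/-- `G` divides `M`: it is a homomorphic image of a submonoid of `M`. -/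
def Divides (G M : Type) [Monoid G] [Monoid M] : Prop :=
  ∃ (N : Submonoid M) (φ : N →* G), Function.Surjective φ

/-- All groups that divide the finite monoid `M` are `2`-groups: each `x` satisfies
`x ^ (n + 2 ^ k) = x ^ n` for some `n`, `k`. -/
def TwoGroups (M : Type) [Monoid M] : Prop := ∀ x : M, ∃ n k : ℕ, x ^ (n + 2 ^ k) = x ^ n

end monoids

section programs

variable {M S : Type} [Monoid M] {n : ℕ}

/-- A read-once program of length `n` over the monoid `M` with input alphabet `S` is given by its
letters `c i s` (`i < n`, `s ∈ S`); its value on the string `x` is the product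
`c 0 (x 0) * c 1 (x 1) * ⋯ * c (n - 1) (x (n - 1))`. -/
def value (c : Fin n → S → M) (x : Fin n → S) : M := (List.ofFn fun i => c i (x i)).prod

/-- The strings that agree with `a` on the positions in `Q`. -/
def cube (Q : Finset (Fin n)) (a : Fin n → S) : Set (Fin n → S) := {x | ∀ i ∈ Q, x i = a i}

end programs

section distributions

variable {S : Type} [Fintype S] {n : ℕ}

/-- The total weight that the weights `μ` give to the set `A`. -/
noncomputable def prob (μ : (Fin n → S) → ℝ) (A : Set (Fin n → S)) : ℝ := ∑ x, A.indicator μ x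

/-- `μ` is a probability distribution on the strings of length `n`. -/
def IsDist (μ : (Fin n → S) → ℝ) : Prop := (∀ x, 0 ≤ μ x) ∧ ∑ x, μ x = 1

/-- The uniform distribution on the strings of length `n`. -/
noncomputable def unif (S : Type) [Fintype S] (n : ℕ) : (Fin n → S) → ℝ :=
  fun _ => (1 / (Fintype.card S : ℝ)) ^ n

/-- How much the acceptance probability of a program for `μ`-random inputs differs from the one
for uniformly random inputs. The program has letters `c` and accepting set `F` and reads the letters
of the input in the order given by the permutation `σ`. -/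
noncomputable def error {M : Type} [Monoid M] (μ : (Fin n → S) → ℝ) (σ : Equiv.Perm (Fin n))
    (c : Fin n → S → M) (F : Set M) : ℝ :=
  |prob μ {x | value c (x ∘ σ) ∈ F} - prob (unif S n) {x | value c (x ∘ σ) ∈ F}|

/-- `μ` gives the right probabilities, up to an error of at most `η`, to all sets of the strings
with given letters at a set `Q` of at most `K` positions and with a given value `γ` of a program
over a finite group `G` for which `P G` holds, with the order of reading `σ`. -/
def FoolsGroups (P : ∀ (G : Type) [Group G], Prop) (σ : Equiv.Perm (Fin n))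
    (μ : (Fin n → S) → ℝ) (K : ℕ) (η : ℝ) : Prop :=
  ∀ (Q : Finset (Fin n)) (a : Fin n → S) (G : Type) [Group G] [Finite G] (g : Fin n → S → G)
    (γ : G), Q.card ≤ K → P G →
      |prob μ (cube Q a ∩ {x | value g (x ∘ σ) = γ})
        - prob (unif S n) (cube Q a ∩ {x | value g (x ∘ σ) = γ})| ≤ η

end distributions

/-- The groups that divide the `K`-th power of `M`. -/
def PowerGroups (M : Type) [Monoid M] (K : ℕ) (G : Type) [Group G] : Prop :=
  Divides G (Fin K → M)

/-- The groups with at most `c` elements. -/
def SmallGroups (c : ℕ) (G : Type) [Group G] : Prop := Nat.card G ≤ c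

/-- Fooling the programs over `M` reduces to fooling programs over groups: for all finite alphabets
`S` and all `δ > 0` there are `K` and `η > 0` such that all distributions on strings over `S`, of any
length, that give the right probabilities, up to `η`, to the sets defined by at most `K` letters
and the value of a program over a group dividing the `K`-th power of `M`, fool all programs over `M`
(with the same order of reading) up to an error of at most `δ`. -/
def ReducesToGroups (M : Type) [Monoid M] : Prop :=
  ∀ (S : Type) [Fintype S] [Nonempty S] (δ : ℝ), 0 < δ → ∃ (K : ℕ) (η : ℝ), 0 < η ∧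
    ∀ (n : ℕ) (σ : Equiv.Perm (Fin n)) (μ : (Fin n → S) → ℝ), IsDist μ →
      FoolsGroups (fun G => PowerGroups M K G) σ μ K η →
        ∀ (c : Fin n → S → M) (F : Set M), error μ σ c F ≤ δ

/-- The distribution of `n` independent bits, where the bit `i` is `0` with probability
`(1 + β i) / 2` and `1` with probability `(1 - β i) / 2`. -/
noncomputable def coins {n : ℕ} (β : Fin n → ℝ) : (Fin n → ZMod 2) → ℝ :=
  fun x => ∏ i, if x i = 0 then (1 + β i) / 2 else (1 - β i) / 2

/-- The programs over `M` do not distinguish nearly fair coins from fair coins: for all `δ > 0`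
there is an `ε > 0` such that independent bits with biases at most `ε`, in any number, fool all
programs over `M`, with any order of reading, up to an error of at most `δ`. -/
def IgnoresCoins (M : Type) [Monoid M] : Prop :=
  ∀ δ : ℝ, 0 < δ → ∃ ε : ℝ, 0 < ε ∧ ∀ (n : ℕ) (β : Fin n → ℝ), (∀ i, |β i| ≤ ε) →
    ∀ (σ : Equiv.Perm (Fin n)) (l : Fin n → ZMod 2 → M) (F : Set M), error (coins β) σ l F ≤ δ

section generators

/-- The generator of Impagliazzo, Nisan and Wigderson with small bias steps, over the field with
`2 ^ m` elements: the bit `t < 2 ^ L` of the output for the seed `w 0, …, w (2 L)`. The seed for the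
second half is the seed for the first half plus `b, b a, b a ^ 2, …`, where `a = w 0`, `b = w 1`. -/
noncomputable def gen (m : ℕ) : ℕ → (ℕ → GaloisField 2 m) → ℕ → ZMod 2
  | 0, w, _ => Algebra.trace (ZMod 2) (GaloisField 2 m) (w 0)
  | L + 1, w, t => if t < 2 ^ L then gen m L (fun j => w (j + 2)) t
      else gen m L (fun j => w (j + 2) + w 1 * w 0 ^ j) (t - 2 ^ L)

/-- The `2 ^ L` output bits for the seed `w`. -/
noncomputable def output (m L : ℕ) (w : Fin (2 * L + 1) → GaloisField 2 m) :
    Fin (2 ^ L) → ZMod 2 :=
  fun t => gen m L (fun j => if h : j < 2 * L + 1 then w ⟨j, h⟩ else 0) t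

/-- The distribution of the output for uniformly random seeds (`(2 L + 1) m` random bits). -/
noncomputable def genDist (m L : ℕ) : (Fin (2 ^ L) → ZMod 2) → ℝ :=
  fun x => (Nat.card {w : Fin (2 * L + 1) → GaloisField 2 m // output m L w = x} : ℝ) /
    (2 ^ m) ^ (2 * L + 1)

/-- The bit string `x_i = Tr (b * a ^ i)` (`i < n`) for elements `a`, `b` of the field with `2 ^ m`
elements. -/
noncomputable def bits (m n : ℕ) (p : GaloisField 2 m × GaloisField 2 m) : Fin n → ZMod 2 :=
  fun i => Algebra.trace (ZMod 2) (GaloisField 2 m) (p.2 * p.1 ^ (i : ℕ))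

/-- The distribution of the sum of `d` independent strings `bits m n (a, b)` for uniformly random
`a`, `b` (`2 d m` random bits). -/
noncomputable def sumDist (m d n : ℕ) : (Fin n → ZMod 2) → ℝ :=
  fun x => (Nat.card {p : Fin d → GaloisField 2 m × GaloisField 2 m //
    ∑ j, bits m n (p j) = x} : ℝ) / (2 ^ m) ^ (2 * d)

end generators

/-- **Theorem.** Let `M` be a finite monoid.
(1), (2) Every regular product of idempotents of `M` is idempotent if and only if fooling the
programs over `M` reduces to fooling programs over groups, if and only if the programs over `M` do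
not distinguish nearly fair coins from fair coins.
(3) In this case the error for the programs over `M` is at most `C / lam ^ K + η / tau ^ K` if `η` is
the error for the sets defined by `K` letters and a program over a group dividing `M ^ K`; the
constants `lam > 1`, `C`, `tau > 0` depend only on `M` and the alphabet.
(4) In this case the generator `output m L` with `2 ^ L` output bits and `(2 L + 1) m` seed bits
fools all programs over `M` that read the bits in the standard order, with an error of at most
`C (L ^ 2 / 2 ^ m) ^ c`.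
(5) If moreover all groups in `M` are `2`-groups, then the sums of `d` strings `Tr (b * a ^ i)` fool
all programs over `M` that read the bits in any order, with an error of at most `C (n / 2 ^ m) ^ c`.
(6) In the case of (1), (2) independent bits with biases at most `ε` fool all programs over `M`, in
any order, with an error of at most `C ε ^ c`.
(7) If some regular product of idempotents of `M` is not idempotent, then for all `K`, `c` and
`η > 0` there are a program over `M` that reads bits and a distribution, that fools up to `η` the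
programs over all groups with at most `c` elements even if `K` letters are fixed, such that the
program accepts at least one third of all inputs, but none of the inputs of positive weight.
(8) In the case of (7), for all `0 < ε ≤ 1` and `W ≥ 2 / ε` some program over `M` that reads
`2 ^ W * W` bits accepts fair bits with probability at least `1 / 3` and bits that are `0` with
probability `(1 - ε) / 2` with probability at most `1 / 6`. -/
theorem result (M : Type) [Monoid M] [Finite M] :
    (IsEDA M ↔ ReducesToGroups M) ∧
    (IsEDA M ↔ IgnoresCoins M) ∧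
    (IsEDA M → ∀ (S : Type) [Fintype S] [Nonempty S], ∃ lam C tau : ℝ, 1 < lam ∧ 0 < tau ∧
      ∀ (n : ℕ) (σ : Equiv.Perm (Fin n)) (μ : (Fin n → S) → ℝ) (K : ℕ) (η : ℝ), 0 ≤ η →
        IsDist μ → FoolsGroups (fun G => PowerGroups M K G) σ μ K η →
          ∀ (c : Fin n → S → M) (F : Set M), error μ σ c F ≤ C / lam ^ K + η / tau ^ K) ∧
    (IsEDA M → ∃ C c : ℝ, 0 < c ∧ ∀ m L : ℕ, 1 ≤ m →
      ∀ (l : Fin (2 ^ L) → ZMod 2 → M) (F : Set M),
        error (genDist m L) (Equiv.refl _) l F ≤ C * ((L : ℝ) ^ 2 / 2 ^ m) ^ c) ∧
    (IsEDA M → TwoGroups M → ∃ (d : ℕ) (C c : ℝ), 0 < c ∧ ∀ m n : ℕ, 1 ≤ m →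
      ∀ (σ : Equiv.Perm (Fin n)) (l : Fin n → ZMod 2 → M) (F : Set M),
        error (sumDist m d n) σ l F ≤ C * ((n : ℝ) / 2 ^ m) ^ c) ∧
    (IsEDA M → ∃ C c : ℝ, 0 < c ∧ ∀ (n : ℕ) (σ : Equiv.Perm (Fin n)) (ε : ℝ) (β : Fin n → ℝ),
      0 ≤ ε → ε ≤ 1 → (∀ i, |β i| ≤ ε) → ∀ (l : Fin n → ZMod 2 → M) (F : Set M),
        error (coins β) σ l F ≤ C * ε ^ c) ∧
    (¬ IsEDA M → ∀ (K c : ℕ) (η : ℝ), 0 < η → ∃ (n : ℕ) (μ : (Fin n → Fin 2) → ℝ)
      (l : Fin n → Fin 2 → M) (F : Set M),
        IsDist μ ∧ FoolsGroups (fun G => SmallGroups c G) (Equiv.refl _) μ K η ∧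
        1 / 3 ≤ prob (unif (Fin 2) n) {x | value l x ∈ F} ∧
        ∀ x, 0 < μ x → value l x ∉ F) ∧
    (¬ IsEDA M → ∀ ε : ℝ, 0 < ε → ε ≤ 1 → ∀ W : ℕ, 2 ≤ ε * W →
      ∃ (l : Fin (2 ^ W * W) → ZMod 2 → M) (F : Set M),
        1 / 3 ≤ prob (unif (ZMod 2) (2 ^ W * W)) {x | value l x ∈ F} ∧
        prob (coins fun _ : Fin (2 ^ W * W) => -ε) {x | value l x ∈ F} ≤ 1 / 6) := by
  have hO : IsEDA M ↔ Helper12.GR.Orth M := Helper12.GR.orth_iff_eda.symm
  have hcoins : ∀ {n : ℕ} (β : Fin n → ℝ), Helper12.GR.coins β = coins β := by
    intro n β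
    funext x
    unfold Helper12.GR.coins coins
    refine Finset.prod_congr rfl fun i _ => ?_
    unfold Helper12.GR.sg
    split_ifs <;> ring
  have hpos : IsEDA M → ∃ C c : ℝ, 0 < c ∧ ∀ (n : ℕ) (σ : Equiv.Perm (Fin n)) (ε : ℝ)
      (β : Fin n → ℝ), 0 ≤ ε → ε ≤ 1 → (∀ i, |β i| ≤ ε) →
        ∀ (l : Fin n → ZMod 2 → M) (F : Set M), error (coins β) σ l F ≤ C * ε ^ c := by
    intro h
    obtain ⟨C, c, hc, hb⟩ := Helper12.GR.coin_pos M (hO.1 h)
    refine ⟨C, c, hc, fun n σ ε β h0 h1 h2 l F => ?_⟩
    have h3 := hb n σ ε β h0 h1 h2 l F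
    rw [hcoins] at h3
    exact h3
  have hneg : ¬ IsEDA M → ∀ ε : ℝ, 0 < ε → ε ≤ 1 → ∀ W : ℕ, 2 ≤ ε * W →
      ∃ (l : Fin (2 ^ W * W) → ZMod 2 → M) (F : Set M),
        1 / 3 ≤ prob (unif (ZMod 2) (2 ^ W * W)) {x | value l x ∈ F} ∧
        prob (coins fun _ : Fin (2 ^ W * W) => -ε) {x | value l x ∈ F} ≤ 1 / 6 := by
    intro h ε h0 h1 W hW
    obtain ⟨l, F, h2, h3⟩ := Helper12.GR.coin_neg (fun h' => h (hO.2 h')) h0 h1 W hW
    rw [hcoins] at h3
    exact ⟨l, F, h2, h3⟩
  refine ⟨⟨fun h => ?_, fun h => ?_⟩, ⟨fun h => ?_, fun h => ?_⟩, fun h S _ _ => ?_, fun h => ?_,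
    fun h h2 => ?_, hpos, fun h K c η hη => ?_, hneg⟩
  · intro S _ _ δ hδ
    exact Helper12.GR.reduces (hO.1 h) S δ hδ
  · by_contra hcon
    exact Helper12.GR.not_reduces' (fun h' => hcon (hO.2 h')) h
  · intro δ hδ
    obtain ⟨C, c, hc, hb⟩ := hpos h
    have h1 : Filter.Tendsto (fun k : ℕ => C * (1 / ((k : ℝ) + 1)) ^ c) Filter.atTop
        (nhds (C * 0 ^ c)) := by
      have h2 := tendsto_one_div_add_atTop_nhds_zero_nat (𝕜 := ℝ)
      exact (h2.rpow_const (Or.inr hc.le)).const_mul C
    rw [Real.zero_rpow hc.ne', mul_zero] at h1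
    obtain ⟨k, hk⟩ := (h1.eventually (ge_mem_nhds hδ)).exists
    refine ⟨1 / ((k : ℝ) + 1), by positivity, fun n β hβ σ l F => ?_⟩
    refine (hb n σ _ β (by positivity) ?_ hβ l F).trans hk
    rw [div_le_one (by positivity)]
    have : (0 : ℝ) ≤ k := Nat.cast_nonneg k
    linarith
  · by_contra hcon
    obtain ⟨ε, h0, h1⟩ := h (1 / 7) (by norm_num)
    set ε' := min ε 1 with hε'
    have h2 : 0 < ε' := lt_min h0 one_pos
    obtain ⟨W, hW⟩ := exists_nat_ge (2 / ε')
    obtain ⟨l, F, h3, h4⟩ := hneg hcon ε' h2 (min_le_right _ _) W (by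
      rw [div_le_iff₀ h2] at hW
      linarith)
    have h5 := h1 (2 ^ W * W) (fun _ => -ε') (fun i => by
      rw [abs_neg, abs_of_pos h2]
      exact min_le_left _ _) (Equiv.refl _) l F
    unfold error at h5
    have h6 : ∀ x : Fin (2 ^ W * W) → ZMod 2, x ∘ (Equiv.refl (Fin (2 ^ W * W))) = x :=
      fun x => rfl
    simp only [h6] at h5
    rw [abs_le] at h5
    linarith [h5.1]
  · exact Helper12.GR.reduce S M (hO.1 h)
  · obtain ⟨C, c, hc, hb⟩ := Helper12.GR.inw_explicit M (hO.1 h)
    refine ⟨C, c, hc, fun m L hm l F => ?_⟩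
    have : Fintype (GaloisField 2 m) := Fintype.ofFinite _
    have hcard : Fintype.card (GaloisField 2 m) = 2 ^ m := by
      rw [← Nat.card_eq_fintype_card, GaloisField.card 2 m (by omega)]
    have hgen : ∀ (i : ℕ) (w : ℕ → GaloisField 2 m) (t : ℕ),
        Helper12.GR.gen i w t = gen m i w t := by
      intro i
      induction i with
      | zero => exact fun w t => rfl
      | succ i ih =>
        intro w t
        simp only [Helper12.GR.gen, gen, ih]
    have hdist : Helper12.GR.inwDist (GaloisField 2 m) L = genDist m L := by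
      funext x
      unfold Helper12.GR.inwDist genDist output
      rw [hcard]
      push_cast
      simp only [hgen]
      rfl
    have h3 := hb (GaloisField 2 m) L l F
    rw [hdist, hcard] at h3
    push_cast at h3
    exact h3
  · obtain ⟨d, C, c, _, hc, hb⟩ := Helper12.GR.explicit M (hO.1 h) h2
    refine ⟨d, C, c, hc, fun m n hm σ l F => ?_⟩
    have : Fintype (GaloisField 2 m) := Fintype.ofFinite _
    have hcard : Fintype.card (GaloisField 2 m) = 2 ^ m := by
      rw [← Nat.card_eq_fintype_card, GaloisField.card 2 m (by omega)]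
    have hdist : Helper12.GR.sumDist (GaloisField 2 m) d n = sumDist m d n := by
      funext x
      unfold Helper12.GR.sumDist sumDist
      rw [hcard]
      push_cast
      rfl
    have h3 := hb (GaloisField 2 m) n σ l F
    rw [hdist, hcard] at h3
    push_cast at h3
    exact h3
  · obtain ⟨n, l, F, μ, h1, h2, h3, h4⟩ :=
      Helper12.GR.not_reduces (fun h' => h (hO.2 h')) K c η hη
    refine ⟨n, μ, l, F, h1, fun Q a G _ _ g γ hQ hG => ?_, h4, fun x hx hxF => ?_⟩
    · exact h2 Q a G g γ hQ hG
    · have h7 : ∀ y ∈ Finset.univ, 0 ≤ Set.indicator {x | value l x ∈ F} μ y :=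
        fun y _ => Set.indicator_nonneg (fun z _ => h1.1 z) y
      have h8 := (Finset.sum_eq_zero_iff_of_nonneg h7).1 h3 x (Finset.mem_univ x)
      rw [Set.indicator_of_mem (by exact hxF)] at h8
      exact hx.ne' h8

end Pool.Agent.Results.MP_92893d_lc.GroupReduction
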