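import Mathlib
import Pool.Agent.Helper4.GA.Main2

set_option autoImplicit false

/-!
A pseudorandom generator with nearly logarithmic seed for read-once programs of bounded size that
consist of a group-free program and a register that is changed by arbitrary permutations, which
depend on the step, the bit and the state of the group-free program.
-/

namespace Pool.Agent.Results.MP_92893d_lc.GroupRegisters

open Helper4.RC Helper4.GA

/-- Let the maps `f i b` of `Fin w` generate an aperiodic monoid and let `φ i b r` be any
permutations of `Fin v`. The program reads the bits `b = x_i`, `i < 2 ^ k`, in this order, and moves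
from the state `(r, o)` to `(f i b r, φ i b r o)`. The generator adds a small bias string over `F` and
an output of the generator of Impagliazzo, Nisan and Wigderson over `F'`, and applies
`C (h + s)` levels `x ↦ D + T x` of small bias strings `D`, `T` over `F` to the sum, `h = log₂ L + 1`.
Its error is at most `2 ^ (- s)`. -/
theorem result (w v : ℕ) : ∃ C₀ : ℕ, ∀ C k s L : ℕ, C₀ ≤ C → 1 ≤ L → k + s ≤ L →
    ∀ (F : Type) [Field F] [Fintype F] [Algebra (ZMod 2) F]
      (F' : Type) [Field F'] [Fintype F'] [Algebra (ZMod 2) F'],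
    2 ^ (C * L * (Nat.log 2 L + 1)) ≤ Fintype.card F →
    2 ^ (C * (Nat.log 2 L + 1 + s)) ≤ Fintype.card F' →
    ∀ (f : ℕ → ZMod 2 → Function.End (Fin w)), GroupFree f →
    ∀ (φ : ℕ → ZMod 2 → Fin w → Equiv.Perm (Fin v)) (u₀ : Fin w × Fin v)
      (A : Set (Fin w × Fin v)),
      |(mean fun ω : (Fin (C * (Nat.log 2 L + 1 + s)) → (F × F) × (F × F)) ×
          ((F × F) × (Fin (2 * k + 1) → F')) =>
          ind (endSt (fun i b u => (f i b u.1, φ i b u.1 u.2)) u₀ (2 ^ k)
            (lay (powStr F (2 ^ k)) (C * (Nat.log 2 L + 1 + s)) ω.1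
              (powStr F (2 ^ k) ω.2.1 + inwOut k ω.2.2)) ∈ A)) -
        mean fun x : Fin (2 ^ k) → ZMod 2 =>
          ind (endSt (fun i b u => (f i b u.1, φ i b u.1 u.2)) u₀ (2 ^ k) x ∈ A)| ≤
        (1 / 2) ^ s :=
  main_width2 w v

end Pool.Agent.Results.MP_92893d_lc.GroupRegisters
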