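import Mathlib
import Pool.Agent.Helper4.RC.Main

set_option autoImplicit false

/-!
A pseudorandom generator with nearly logarithmic seed for read-once programs, reading their bits in
any order, whose state is a cascade of a bounded number of reset registers, and for read-once
programs of bounded width whose transition maps generate an aperiodic monoid.
-/

namespace Pool.Agent.Results.MP_92893d_lc.ResetCascades

open Helper4.RC

theorem result :
    (∀ m : ℕ, ∃ C₀ : ℕ, ∀ C n w s L : ℕ, C₀ ≤ C → 1 ≤ n → 1 ≤ w → 1 ≤ L →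
      n * w * 2 ^ s ≤ 2 ^ L →
      ∀ (F : Type) [Field F] [Fintype F] [Algebra (ZMod 2) F],
      2 ^ (C * L * (Nat.log 2 L + 1)) ≤ Fintype.card F →
      ∀ (c : ℕ → ZMod 2 → Instr m w) (q : Fin m → Fin w) (A : Set (Fin m → Fin w))
        (π : Equiv.Perm (Fin n)),
        Fooled F n (C * (Nat.log 2 L + 1)) ((1 / 2) ^ s) fun x =>
          endSt (fun i b => (c i b).act) q n (fun i => x (π i)) ∈ A) ∧
    (∀ w : ℕ, ∃ C₀ : ℕ, ∀ C n s L : ℕ, C₀ ≤ C → 1 ≤ n → 1 ≤ L → n * 2 ^ s ≤ 2 ^ L →
      ∀ (F : Type) [Field F] [Fintype F] [Algebra (ZMod 2) F],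
      2 ^ (C * L * (Nat.log 2 L + 1)) ≤ Fintype.card F →
      ∀ f : ℕ → ZMod 2 → Function.End (Fin w), GroupFree f →
      ∀ (q : Fin w) (A : Set (Fin w)) (π : Equiv.Perm (Fin n)),
        Fooled F n (C * (Nat.log 2 L + 1)) ((1 / 2) ^ s) fun x =>
          endSt (fun i b => f i b) q n (fun i => x (π i)) ∈ A) := by
  refine ⟨?_, ?_⟩
  · intro m
    obtain ⟨C₀, hC₀⟩ := main_cascade m
    refine ⟨C₀ + 1, ?_⟩
    intro C n w s L hC hn hw hL h F _ _ _ hF c q A π
    refine hC₀ C n w s L (by omega) hn hw hL (le_trans h ?_) F hF c q A π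
    exact Nat.le_mul_of_pos_left _ (by omega)
  · intro w
    exact main_width w

end Pool.Agent.Results.MP_92893d_lc.ResetCascades
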